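import Mathlib

/-!
# Multigraphs with even cuts, connectedness by functions with values in `ZMod 2`

A multigraph is a function `ends : E → Sym2 V`, a class a finset `H` of edges. `H` is even if all
its cuts are even: `∑ e ∈ H, bd C (ends e) = 0` for all `C : V → ZMod 2`; it is connected if every
function constant along its edges is constant.
-/

set_option autoImplicit false

namespace Pool.Agent.Helper74.BL

open Finset

section Abstract

variable {V E : Type*}

/-- the difference of the values of `C` at the two ends of an edge -/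
def bd (C : V → ZMod 2) : Sym2 V → ZMod 2 :=
  Sym2.lift ⟨fun x y => C x + C y, fun _ _ => add_comm _ _⟩

@[simp]
theorem bd_mk (C : V → ZMod 2) (x y : V) : bd C s(x, y) = C x + C y := rfl

theorem z2_add_self (a : ZMod 2) : a + a = 0 := CharTwo.add_self_eq_zero a

theorem z2_add_eq_zero {a b : ZMod 2} : a + b = 0 ↔ a = b := CharTwo.add_eq_zero

theorem bd_mk_eq_zero {C : V → ZMod 2} {x y : V} : bd C s(x, y) = 0 ↔ C x = C y := by
  rw [bd_mk, z2_add_eq_zero]

theorem bd_mul {C D : V → ZMod 2} {z : Sym2 V} (hC : bd C z = 0) (hD : bd D z = 0) :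
    bd (C * D) z = 0 := by
  induction z using Sym2.ind with
  | _ x y =>
    rw [bd_mk_eq_zero] at *
    simp only [Pi.mul_apply, hC, hD]

theorem bd_add (C D : V → ZMod 2) (z : Sym2 V) : bd (C + D) z = bd C z + bd D z := by
  induction z using Sym2.ind with
  | _ x y =>
    simp only [bd_mk, Pi.add_apply]
    ring

theorem bd_mul_left {C D : V → ZMod 2} {x y : V} (hD : D x = D y) :
    bd (C * D) s(x, y) = D x * bd C s(x, y) := by
  simp only [bd_mk, Pi.mul_apply, ← hD]
  ring

/-- all cuts of `H` are even -/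
def Ev (ends : E → Sym2 V) (H : Finset E) : Prop :=
  ∀ C : V → ZMod 2, ∑ e ∈ H, bd C (ends e) = 0

/-- `C` is constant along the edges of `H` -/
def Cst (ends : E → Sym2 V) (H : Finset E) (C : V → ZMod 2) : Prop :=
  ∀ e ∈ H, bd C (ends e) = 0

/-- `H` is connected -/
def Cn (ends : E → Sym2 V) (H : Finset E) : Prop :=
  ∀ C : V → ZMod 2, Cst ends H C → ∀ x y, C x = C y

variable {ends : E → Sym2 V} {H : Finset E}

theorem Cst.mono {H' : Finset E} {C : V → ZMod 2} (h : Cst ends H' C) (hH : H ⊆ H') :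
    Cst ends H C := fun e he => h e (hH he)

theorem Cst.add_const {C : V → ZMod 2} (h : Cst ends H C) (a : ZMod 2) :
    Cst ends H (fun v => C v + a) := by
  intro e he
  have h1 := h e he
  revert h1
  generalize ends e = z
  induction z using Sym2.ind with
  | _ x y =>
    rw [bd_mk_eq_zero, bd_mk_eq_zero]
    intro h1
    rw [h1]

variable [DecidableEq E]

/-- in the cut sum only the edges of a set `S` count if `C` is constant along the others -/
theorem Ev.sum_sub (hH : Ev ends H) {S : Finset E} (hS : S ⊆ H) {C : V → ZMod 2}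
    (hC : Cst ends (H \ S) C) : ∑ e ∈ S, bd C (ends e) = 0 := by
  have h1 := hH C
  rw [← sum_sdiff hS, sum_eq_zero hC, zero_add] at h1
  exact h1

/-- a bridge does not exist: one edge can be removed -/
theorem Ev.one (hH : Ev ends H) {a : E} (ha : a ∈ H) {C : V → ZMod 2}
    (hC : Cst ends (H \ {a}) C) : Cst ends H C := by
  have h1 := hH.sum_sub (S := {a}) (by simpa using ha) hC
  rw [sum_singleton] at h1
  intro e he
  by_cases h : e = a
  · rw [h, h1]
  · exact hC e (by simp [he, h])

/-- two edges: the jumps are equal -/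
theorem Ev.two (hH : Ev ends H) {a b : E} (ha : a ∈ H) (hb : b ∈ H) (hab : a ≠ b)
    {C : V → ZMod 2} (hC : Cst ends (H \ {a, b}) C) : bd C (ends a) = bd C (ends b) := by
  have h1 := hH.sum_sub (S := {a, b}) (by
    intro x hx
    simp only [mem_insert, mem_singleton] at hx
    rcases hx with rfl | rfl <;> assumption) hC
  rw [sum_pair hab] at h1
  exact z2_add_eq_zero.1 h1

/-- MERGE: if two edges `x₁ y₁`, `x₂ y₂` of different components of `H` are replaced by `x₁ x₂`,
`y₁ y₂`, then the two components are joined and nothing else happens -/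
theorem merge (hH : Ev ends H) {a b : E} (ha : a ∈ H) (hb : b ∈ H) {x₁ y₁ x₂ y₂ : V}
    (ea : ends a = s(x₁, y₁)) (eb : ends b = s(x₂, y₂)) {D : V → ZMod 2} (hD : Cst ends H D)
    (hne : D x₁ ≠ D x₂) {C : V → ZMod 2} (hC : Cst ends (H \ {a, b}) C) (hx : C x₁ = C x₂)
    (hy : C y₁ = C y₂) : Cst ends H C := by
  have hD1 : D x₁ = D y₁ := by
    have := hD a ha
    rwa [ea, bd_mk_eq_zero] at this
  have hD2 : D x₂ = D y₂ := by
    have := hD b hb
    rwa [eb, bd_mk_eq_zero] at this
  have hab : a ≠ b := by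
    rintro rfl
    rw [ea] at eb
    rcases Sym2.eq_iff.1 eb with ⟨h1, -⟩ | ⟨h1, -⟩
    · exact hne (by rw [h1])
    · exact hne (by rw [h1, hD2])
  have h1 := hH.two ha hb hab (C := C * D) (fun e he => bd_mul (hC e he)
    (hD e ((mem_sdiff.1 he).1)))
  rw [ea, eb, bd_mul_left hD1, bd_mul_left hD2, bd_mk, bd_mk, ← hx, ← hy] at h1
  have h2 : C x₁ + C y₁ = 0 := by
    have h3 : ∀ u v w : ZMod 2, u ≠ v → u * w = v * w → w = 0 := by decide
    exact h3 _ _ _ hne h1
  intro e he
  by_cases h : e = a
  · rw [h, ea, bd_mk, h2]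
  · by_cases h' : e = b
    · rw [h', eb, bd_mk, ← hx, ← hy, h2]
    · exact hC e (by simp [he, h, h'])

/-- WINDOW: for three parallel strands `p i, q i, r i` of a connected class `H`, one of the two
diagonals gives again a connected class. Diagonal `A` removes `p₀q₀, p₁q₁, q₁r₁, q₂r₂` and adds
`p₀p₁, q₀q₁, q₁q₂, r₁r₂`; diagonal `B` is its mirror image. -/
theorem window (hH : Ev ends H) (hC : Cn ends H) {p q r : Fin 3 → V} {e e' : Fin 3 → E}
    (he : ∀ i, e i ∈ H) (he' : ∀ i, e' i ∈ H) (ee : ∀ i, ends (e i) = s(p i, q i))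
    (ee' : ∀ i, ends (e' i) = s(q i, r i)) (hne : ∀ i, e i ≠ e' i)
    (hq : ∀ x ∈ H, ∀ i, q i ∈ ends x → x = e i ∨ x = e' i)
    (hqq : ∀ i j, q i = q j → i = j)
    (hqp : ∀ i j, q i ≠ p j) (hqr : ∀ i j, q i ≠ r j) {A B : (V → ZMod 2) → Prop}
    (hA : ∀ C, A C → Cst ends (H \ {e 0, e 1, e' 1, e' 2}) C ∧ C (p 0) = C (p 1) ∧
      C (q 0) = C (q 1) ∧ C (q 1) = C (q 2) ∧ C (r 1) = C (r 2))
    (hB : ∀ C, B C → Cst ends (H \ {e 2, e 1, e' 1, e' 0}) C ∧ C (p 2) = C (p 1) ∧
      C (q 2) = C (q 1) ∧ C (q 1) = C (q 0) ∧ C (r 1) = C (r 0)) :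
    (∀ C, A C → ∀ x y, C x = C y) ∨ (∀ C, B C → ∀ x y, C x = C y) := by
  classical
  by_contra hcon
  push Not at hcon
  obtain ⟨⟨C, hAC, x, y, hxy⟩, ⟨D, hBD, x', y', hxy'⟩⟩ := hcon
  obtain ⟨c1, c2, c3, c4, c5⟩ := hA C hAC
  obtain ⟨d1, d2, d3, d4, d5⟩ := hB D hBD
  -- the six edges are different
  have n1 : ∀ i j, e i = e j → i = j := by
    intro i j hij
    have h1 := ee i
    rw [hij, ee j] at h1
    rcases Sym2.eq_iff.1 h1 with ⟨-, h2⟩ | ⟨-, h2⟩
    · exact hqq _ _ h2.symm
    · exact absurd h2 (hqp _ _)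
  have n2 : ∀ i j, e' i = e' j → i = j := by
    intro i j hij
    have h1 := ee' i
    rw [hij, ee' j] at h1
    rcases Sym2.eq_iff.1 h1 with ⟨h2, -⟩ | ⟨h2, -⟩
    · exact hqq _ _ h2.symm
    · exact absurd h2 (hqr _ _)
  have n3 : ∀ i j, e i ≠ e' j := by
    intro i j hij
    have h1 := ee i
    rw [hij, ee' j] at h1
    rcases Sym2.eq_iff.1 h1 with ⟨h2, -⟩ | ⟨h2, -⟩
    · exact hqp _ _ h2
    · have := hqq _ _ h2
      subst this
      exact hne _ hij
  -- normalise
  have c1' := c1.add_const (C (q 0))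
  have d1' := d1.add_const (D (q 0))
  set C' : V → ZMod 2 := fun v => C v + C (q 0) with hC'
  set D' : V → ZMod 2 := fun v => D v + D (q 0) with hD'
  have cq : ∀ i, C' (q i) = 0 := by
    have h0 : C' (q 0) = 0 := z2_add_self _
    have h1 : C' (q 1) = 0 := by
      simp only [hC', ← c3]
      exact z2_add_self _
    have h2 : C' (q 2) = 0 := by
      simp only [hC', ← c4, ← c3]
      exact z2_add_self _
    intro i
    fin_cases i
    · exact h0
    · exact h1
    · exact h2
  have dq : ∀ i, D' (q i) = 0 := by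
    have h0 : D' (q 0) = 0 := z2_add_self _
    have h1 : D' (q 1) = 0 := by
      simp only [hD', d4]
      exact z2_add_self _
    have h2 : D' (q 2) = 0 := by
      simp only [hD', d3, d4]
      exact z2_add_self _
    intro i
    fin_cases i
    · exact h0
    · exact h1
    · exact h2
  have cp2 : C' (p 2) = 0 := by
    have h1 := c1' (e 2) (by
      simp only [mem_sdiff, he, mem_insert, mem_singleton, n3, true_and, or_false, not_or]
      exact ⟨fun h => absurd (n1 _ _ h) (by decide), fun h => absurd (n1 _ _ h) (by decide)⟩)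
    rw [ee, bd_mk_eq_zero, cq] at h1
    exact h1
  have cr0 : C' (r 0) = 0 := by
    have h1 := c1' (e' 0) (by
      simp only [mem_sdiff, he', mem_insert, mem_singleton, (n3 _ _).symm, true_and,
        false_or, not_or]
      exact ⟨fun h => absurd (n2 _ _ h) (by decide), fun h => absurd (n2 _ _ h) (by decide)⟩)
    rw [ee', bd_mk_eq_zero, cq] at h1
    exact h1.symm
  have dp0 : D' (p 0) = 0 := by
    have h1 := d1' (e 0) (by
      simp only [mem_sdiff, he, mem_insert, mem_singleton, n3, true_and, or_false, not_or]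
      exact ⟨fun h => absurd (n1 _ _ h) (by decide), fun h => absurd (n1 _ _ h) (by decide)⟩)
    rw [ee, bd_mk_eq_zero, dq] at h1
    exact h1
  have dr2 : D' (r 2) = 0 := by
    have h1 := d1' (e' 2) (by
      simp only [mem_sdiff, he', mem_insert, mem_singleton, (n3 _ _).symm, true_and,
        false_or, not_or]
      exact ⟨fun h => absurd (n2 _ _ h) (by decide), fun h => absurd (n2 _ _ h) (by decide)⟩)
    rw [ee', bd_mk_eq_zero, dq] at h1
    exact h1.symm
  have cpp : C' (p 0) = C' (p 1) := by simp only [hC', c2]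
  have crr : C' (r 1) = C' (r 2) := by simp only [hC', c5]
  have dpp : D' (p 2) = D' (p 1) := by simp only [hD', d2]
  have drr : D' (r 1) = D' (r 0) := by simp only [hD', d5]
  -- not constant
  have hcne : C' (p 0) ≠ 0 ∨ C' (r 1) ≠ 0 := by
    by_contra h
    push Not at h
    apply hxy
    have h1 : Cst ends H C' := by
      intro z hz
      by_cases h0 : z ∈ ({e 0, e 1, e' 1, e' 2} : Finset E)
      · simp only [mem_insert, mem_singleton] at h0
        rcases h0 with rfl | rfl | rfl | rfl
        · rw [ee, bd_mk, cq, h.1, add_zero]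
        · rw [ee, bd_mk, cq, ← cpp, h.1, add_zero]
        · rw [ee', bd_mk, cq, h.2, add_zero]
        · rw [ee', bd_mk, cq, ← crr, h.2, add_zero]
      · exact c1' z (mem_sdiff.2 ⟨hz, h0⟩)
    exact add_right_cancel (hC C' h1 x y)
  have hdne : D' (p 1) ≠ 0 ∨ D' (r 1) ≠ 0 := by
    by_contra h
    push Not at h
    apply hxy'
    have h1 : Cst ends H D' := by
      intro z hz
      by_cases h0 : z ∈ ({e 2, e 1, e' 1, e' 0} : Finset E)
      · simp only [mem_insert, mem_singleton] at h0
        rcases h0 with rfl | rfl | rfl | rfl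
        · rw [ee, bd_mk, dq, dpp, h.1, add_zero]
        · rw [ee, bd_mk, dq, h.1, add_zero]
        · rw [ee', bd_mk, dq, h.2, add_zero]
        · rw [ee', bd_mk, dq, ← drr, h.2, add_zero]
      · exact d1' z (mem_sdiff.2 ⟨hz, h0⟩)
    exact add_right_cancel (hC D' h1 x' y')
  -- the cut of the product
  have hcut : C' (p 0) * D' (p 1) = C' (r 1) * D' (r 1) := by
    have h1 := hH.sum_sub (S := {e 0, e 1, e 2, e' 0, e' 1, e' 2}) (by
      intro z hz
      simp only [mem_insert, mem_singleton] at hz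
      rcases hz with rfl | rfl | rfl | rfl | rfl | rfl <;> first | exact he _ | exact he' _)
      (C := C' * D') (by
        intro z hz
        simp only [mem_sdiff, mem_insert, mem_singleton, not_or] at hz
        obtain ⟨h0, h1, h2, h3, h4, h5, h6⟩ := hz
        exact bd_mul (c1' z (by simp [h0, h1, h2, h5, h6]))
          (d1' z (by simp [h0, h2, h3, h4, h5])))
    have m1 : e 0 ≠ e 1 := fun h => absurd (n1 _ _ h) (by decide)
    have m2 : e 0 ≠ e 2 := fun h => absurd (n1 _ _ h) (by decide)
    have m3 : e 1 ≠ e 2 := fun h => absurd (n1 _ _ h) (by decide)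
    have m4 : e' 0 ≠ e' 1 := fun h => absurd (n2 _ _ h) (by decide)
    have m5 : e' 0 ≠ e' 2 := fun h => absurd (n2 _ _ h) (by decide)
    have m6 : e' 1 ≠ e' 2 := fun h => absurd (n2 _ _ h) (by decide)
    rw [sum_insert (by simp [m1, m2, n3]), sum_insert (by simp [m3, n3]),
      sum_insert (by simp [n3]), sum_insert (by simp [m4, m5]), sum_insert (by simp [m6]),
      sum_singleton] at h1
    simp only [ee, ee', bd_mk, Pi.mul_apply, cq, dq, cp2, cr0, dp0, dr2, mul_zero, zero_mul,
      add_zero, zero_add] at h1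
    rw [← cpp] at h1
    exact z2_add_eq_zero.1 h1
  obtain ⟨k1, k2⟩ : C' (p 0) = D' (r 1) ∧ D' (p 1) = C' (r 1) := by
    have h3 : ∀ a b a' b' : ZMod 2, (a ≠ 0 ∨ b ≠ 0) → (a' ≠ 0 ∨ b' ≠ 0) → a * a' = b * b' →
        a = b' ∧ a' = b := by decide
    exact h3 _ _ _ _ hcne hdne hcut
  -- the function `F`
  set F : V → ZMod 2 := fun v => if h : ∃ i, v = q i then C' (p h.choose) + D' (p h.choose)
    else C' v + D' v with hF
  have Fq : ∀ i, F (q i) = C' (p i) + D' (p i) := by
    intro i
    have h : ∃ j, q i = q j := ⟨i, rfl⟩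
    have h1 : h.choose = i := (hqq _ _ h.choose_spec).symm
    simp only [hF]
    rw [dif_pos h, h1]
  have Fn : ∀ v, (∀ i, v ≠ q i) → F v = C' v + D' v := by
    intro v hv
    simp only [hF]
    rw [dif_neg]
    rintro ⟨i, hi⟩
    exact hv i hi
  have hFc : Cst ends H F := by
    intro z hz
    by_cases hzq : ∃ i, q i ∈ ends z
    · obtain ⟨i, hi⟩ := hzq
      rcases hq z hz i hi with rfl | rfl
      · rw [ee, bd_mk, Fq, Fn _ (fun j => (hqp j i).symm), z2_add_self]
      · rw [ee', bd_mk, Fq, Fn _ (fun j => (hqr j i).symm)]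
        fin_cases i
        · simp only [Fin.zero_eta, Fin.isValue]
          rw [dp0, cr0, ← drr, k1, add_zero, zero_add, z2_add_self]
        · simp only [Fin.mk_one, Fin.isValue]
          rw [← cpp, k1, k2, add_comm (C' (r 1)), z2_add_self]
        · simp only [Fin.reduceFinMk, Fin.isValue]
          rw [cp2, dr2, dpp, ← crr, k2, add_zero, zero_add, z2_add_self]
    · push Not at hzq
      have h1 : bd F (ends z) = bd C' (ends z) + bd D' (ends z) := by
        rw [← bd_add]
        revert hzq
        generalize ends z = w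
        induction w using Sym2.ind with
        | _ u v =>
          intro hzq
          rw [bd_mk, bd_mk, Fn u, Fn v]
          · rfl
          · intro i h
            exact hzq i (by rw [h]; exact Sym2.mem_mk_right _ _)
          · intro i h
            exact hzq i (by rw [h]; exact Sym2.mem_mk_left _ _)
      have h2 : ∀ i, z ≠ e i := by
        rintro i rfl
        exact hzq i (by rw [ee]; exact Sym2.mem_mk_right _ _)
      have h3 : ∀ i, z ≠ e' i := by
        rintro i rfl
        exact hzq i (by rw [ee']; exact Sym2.mem_mk_left _ _)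
      rw [h1, c1' z (by simp [hz, h2, h3]), d1' z (by simp [hz, h2, h3]), add_zero]
  have f1 := hC F hFc (p 0) (p 1)
  have f2 := hC F hFc (p 0) (p 2)
  rw [Fn _ (fun j => (hqp j _).symm), Fn _ (fun j => (hqp j _).symm), dp0, ← cpp] at f1
  rw [Fn _ (fun j => (hqp j _).symm), Fn _ (fun j => (hqp j _).symm), dp0, cp2, dpp] at f2
  have f3 : D' (p 1) = 0 := by
    have h3 : ∀ a b : ZMod 2, a + 0 = a + b → b = 0 := by decide
    exact h3 _ _ f1
  rcases hcne with h | h
  · apply h
    rw [f3] at f2
    simpa using f2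
  · exact h (by rw [← k2, f3])

end Abstract

end Pool.Agent.Helper74.BL
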