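import Mathlib
import Pool.Agent.Helper4.Sel.HamDec
import Pool.Agent.Helper74.BL.Cut

/-!
# Decompositions of Cayley multigraphs into Hamilton cycles

Labels `f : I → K`; the edges are the pairs `(x, i)`, joining `x` and `x + f i` (so an involution
`f i` gives double edges). A decomposition into `|I|` classes is a colouring
`col : K → I → I` of the edges such that every vertex has two half edges of every colour; the
half edges at `x` are `(x, i)` (tail at `x`) and `(x - f i, i)` (head at `x`).
-/

set_option autoImplicit false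
set_option linter.unusedSectionVars false

namespace Pool.Agent.Helper74.BL

open Finset

section Defs

variable {K : Type*} [AddCommGroup K] {I : Type*} [Fintype I] [DecidableEq I]

/-- number of half edges of colour `c` at `x` -/
def hdeg (f : I → K) (col : K → I → I) (x : K) (c : I) : ℕ :=
  (univ.filter fun i => col x i = c).card + (univ.filter fun i => col (x - f i) i = c).card

/-- every class is 2-regular -/
def Deg2 (f : I → K) (col : K → I → I) : Prop := ∀ x c, hdeg f col x c = 2

/-- `P` is a union of components of the class `c` -/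
def Closed (f : I → K) (col : K → I → I) (c : I) (P : Set K) : Prop :=
  ∀ x i, col x i = c → (x ∈ P ↔ x + f i ∈ P)

/-- the class `c` is connected -/
def Conn (f : I → K) (col : K → I → I) (c : I) : Prop :=
  ∀ P : Set K, Closed f col c P → ∀ x y, x ∈ P → y ∈ P

/-- exact decomposition of the Cayley multigraph into Hamilton cycles -/
def EDec (f : I → K) : Prop := ∃ col : K → I → I, Deg2 f col ∧ ∀ c, Conn f col c

end Defs

section Conn

variable {K : Type*} [AddCommGroup K] {I : Type*}

omit [AddCommGroup K] in
theorem conn_iff_fun [AddCommGroup K] {f : I → K} {col : K → I → I} {c : I} :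
    Conn f col c ↔ ∀ (α : Type) (C : K → α), (∀ x i, col x i = c → C x = C (x + f i)) →
      ∀ x y, C x = C y := by
  constructor
  · intro h α C hC x y
    have h1 := h {z | C z = C x} (fun z i hz => by
      simp only [Set.mem_ofPred_eq]
      rw [hC z i hz]) x y rfl
    exact h1.symm
  · intro h P hP x y hx
    have h1 := h Prop (fun z => z ∈ P) (fun z i hz => propext (hP z i hz)) x y
    exact h1.mp hx

omit [AddCommGroup K] in
theorem conn_fun [AddCommGroup K] {f : I → K} {col : K → I → I} {c : I} (h : Conn f col c)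
    {α : Type*} (C : K → α) (hC : ∀ x i, col x i = c → C x = C (x + f i)) (x y : K) :
    C x = C y := by
  have h1 := h {z | C z = C x} (fun z i hz => by
      simp only [Set.mem_ofPred_eq]
      rw [hC z i hz]) x y rfl
  exact h1.symm

omit [AddCommGroup K] in
theorem conn_iff_eqvGen [AddCommGroup K] {f : I → K} {col : K → I → I} {c : I} :
    Conn f col c ↔ ∀ x y, Relation.EqvGen (fun x y => ∃ i, col x i = c ∧ y = x + f i) x y := by
  constructor
  · intro h x y
    refine h {z | Relation.EqvGen (fun x y => ∃ i, col x i = c ∧ y = x + f i) x z} ?_ x y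
      (Relation.EqvGen.refl _)
    intro z i hz
    have h1 : Relation.EqvGen (fun x y => ∃ i, col x i = c ∧ y = x + f i) z (z + f i) :=
      Relation.EqvGen.rel _ _ ⟨i, hz, rfl⟩
    exact ⟨fun h2 => h2.trans _ _ _ h1, fun h2 => h2.trans _ _ _ (h1.symm _ _)⟩
  · intro h P hP x y hx
    have h1 : ∀ u v, Relation.EqvGen (fun x y => ∃ i, col x i = c ∧ y = x + f i) u v →
        (u ∈ P ↔ v ∈ P) := by
      intro u v huv
      induction huv with
      | rel u v h =>
        obtain ⟨i, hi, rfl⟩ := h
        exact hP u i hi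
      | refl u => exact Iff.rfl
      | symm u v _ ih => exact ih.symm
      | trans u v w _ _ ih1 ih2 => exact ih1.trans ih2
    exact (h1 x y (h x y)).1 hx

end Conn

section Swap

variable {K : Type*} [AddCommGroup K] {I : Type*} [Fintype I] [DecidableEq I]

open Classical in
/-- exchange the colours `c` and `d` on the set `S` of edges -/
noncomputable def swapOn (S : Set (K × I)) (c d : I) (col : K → I → I) : K → I → I := fun x i =>
  if (x, i) ∈ S then Equiv.swap c d (col x i) else col x i

open Classical in
/-- number of half edges of colour `c` at `x` in `S` -/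
noncomputable def hdegOn (f : I → K) (col : K → I → I) (S : Set (K × I)) (x : K) (c : I) : ℕ :=
  (univ.filter fun i => (x, i) ∈ S ∧ col x i = c).card +
    (univ.filter fun i => (x - f i, i) ∈ S ∧ col (x - f i) i = c).card

open Classical in
theorem hdeg_split (f : I → K) (col : K → I → I) (S : Set (K × I)) (x : K) (c : I) :
    hdeg f col x c = hdegOn f col S x c + hdegOn f col Sᶜ x c := by
  unfold hdeg hdegOn
  have h1 : (univ.filter fun i => col x i = c).card =
      (univ.filter fun i => (x, i) ∈ S ∧ col x i = c).card +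
      (univ.filter fun i => (x, i) ∈ Sᶜ ∧ col x i = c).card := by
    rw [← card_union_of_disjoint]
    · congr 1
      ext i
      simp only [mem_filter, mem_univ, true_and, mem_union, Set.mem_compl_iff]
      tauto
    · rw [disjoint_left]
      intro i hi hj
      simp only [mem_filter, mem_univ, true_and, Set.mem_compl_iff] at hi hj
      exact hj.1 hi.1
  have h2 : (univ.filter fun i => col (x - f i) i = c).card =
      (univ.filter fun i => (x - f i, i) ∈ S ∧ col (x - f i) i = c).card +
      (univ.filter fun i => (x - f i, i) ∈ Sᶜ ∧ col (x - f i) i = c).card := by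
    rw [← card_union_of_disjoint]
    · congr 1
      ext i
      simp only [mem_filter, mem_univ, true_and, mem_union, Set.mem_compl_iff]
      tauto
    · rw [disjoint_left]
      intro i hi hj
      simp only [mem_filter, mem_univ, true_and, Set.mem_compl_iff] at hi hj
      exact hj.1 hi.1
  have h3 : ∀ a b c d e g : ℕ, a = b + c → d = e + g → a + d = b + e + (c + g) := by
    intros
    omega
  convert h3 _ _ _ _ _ _ h1 h2

theorem hdegOn_swap (f : I → K) (col : K → I → I) (S : Set (K × I)) (c d : I) (x : K) (e : I) :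
    hdegOn f (swapOn S c d col) S x e = hdegOn f col S x (Equiv.swap c d e) := by
  classical
  unfold hdegOn swapOn
  congr 2
  · ext i
    simp only [mem_filter, mem_univ, true_and]
    constructor
    · rintro ⟨h1, h2⟩
      rw [if_pos h1] at h2
      exact ⟨h1, by rw [← h2, Equiv.swap_apply_self]⟩
    · rintro ⟨h1, h2⟩
      rw [if_pos h1]
      exact ⟨h1, by rw [h2, Equiv.swap_apply_self]⟩
  · ext i
    simp only [mem_filter, mem_univ, true_and]
    constructor
    · rintro ⟨h1, h2⟩
      rw [if_pos h1] at h2
      exact ⟨h1, by rw [← h2, Equiv.swap_apply_self]⟩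
    · rintro ⟨h1, h2⟩
      rw [if_pos h1]
      exact ⟨h1, by rw [h2, Equiv.swap_apply_self]⟩

theorem hdegOn_swap_compl (f : I → K) (col : K → I → I) (S : Set (K × I)) (c d : I) (x : K)
    (e : I) : hdegOn f (swapOn S c d col) Sᶜ x e = hdegOn f col Sᶜ x e := by
  classical
  unfold hdegOn swapOn
  congr 2
  · ext i
    simp only [mem_filter, mem_univ, true_and, Set.mem_compl_iff]
    constructor
    · rintro ⟨h1, h2⟩
      rw [if_neg h1] at h2
      exact ⟨h1, h2⟩
    · rintro ⟨h1, h2⟩
      rw [if_neg h1]
      exact ⟨h1, h2⟩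
  · ext i
    simp only [mem_filter, mem_univ, true_and, Set.mem_compl_iff]
    constructor
    · rintro ⟨h1, h2⟩
      rw [if_neg h1] at h2
      exact ⟨h1, h2⟩
    · rintro ⟨h1, h2⟩
      rw [if_neg h1]
      exact ⟨h1, h2⟩

/-- exchanging two colours on a balanced set of edges preserves the degrees -/
theorem Deg2.swapOn {f : I → K} {col : K → I → I} (h : Deg2 f col) {S : Set (K × I)} {c d : I}
    (hS : ∀ x, hdegOn f col S x c = hdegOn f col S x d) : Deg2 f (swapOn S c d col) := by
  intro x e
  rw [hdeg_split f _ S, hdegOn_swap, hdegOn_swap_compl, ← h x e, hdeg_split f col S]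
  congr 1
  by_cases hc : e = c
  · subst hc
    rw [Equiv.swap_apply_left, hS]
  · by_cases hd : e = d
    · subst hd
      rw [Equiv.swap_apply_right, hS]
    · rw [Equiv.swap_apply_of_ne_of_ne hc hd]

end Swap

section Classes

variable {K : Type*} [AddCommGroup K] {I : Type*}

/-- the two ends of an edge -/
def ends (f : I → K) (e : K × I) : Sym2 K := s(e.1, e.1 + f e.2)

variable [Fintype K] [Fintype I] [DecidableEq I]

/-- the class `c` -/
def cls (col : K → I → I) (c : I) : Finset (K × I) := univ.filter fun e => col e.1 e.2 = c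

omit [AddCommGroup K] in
theorem mem_cls {col : K → I → I} {c : I} {e : K × I} : e ∈ cls col c ↔ col e.1 e.2 = c := by
  simp [cls]

theorem cst_iff {f : I → K} {col : K → I → I} {c : I} {C : K → ZMod 2} :
    Cst (ends f) (cls col c) C ↔ ∀ x i, col x i = c → C x = C (x + f i) := by
  constructor
  · intro h x i hi
    have h1 := h (x, i) (mem_cls.2 hi)
    exact bd_mk_eq_zero.1 h1
  · rintro h ⟨x, i⟩ he
    exact bd_mk_eq_zero.2 (h x i (mem_cls.1 he))

theorem conn_iff_cn {f : I → K} {col : K → I → I} {c : I} :
    Conn f col c ↔ Cn (ends f) (cls col c) := by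
  classical
  constructor
  · intro h C hC x y
    exact conn_fun h C (cst_iff.1 hC) x y
  · intro h P hP x y hx
    have h1 := h (fun z => if z ∈ P then 1 else 0) (cst_iff.2 fun z i hz => by
      have := hP z i hz
      by_cases h2 : z ∈ P
      · simp [h2, this.1 h2]
      · simp [h2, mt this.2 h2]) x y
    by_contra hy
    simp [hx, hy] at h1

theorem conn_iff {f : I → K} {col : K → I → I} {c : I} :
    Conn f col c ↔ ∀ C : K → ZMod 2, (∀ x i, col x i = c → C x = C (x + f i)) →
      ∀ x y, C x = C y := by
  rw [conn_iff_cn]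
  exact ⟨fun h C hC => h C (cst_iff.2 hC), fun h C hC => h C (cst_iff.1 hC)⟩

/-- the classes of a 2-factorisation have even cuts -/
theorem Deg2.ev {f : I → K} {col : K → I → I} (h : Deg2 f col) (c : I) :
    Ev (ends f) (cls col c) := by
  intro C
  unfold cls ends
  rw [sum_filter, Fintype.sum_prod_type]
  simp only [bd_mk]
  have h1 : ∀ x : K, ∑ i : I, (if col x i = c then C x + C (x + f i) else 0) =
      ((univ.filter fun i => col x i = c).card : ZMod 2) * C x +
      ∑ i : I, (if col x i = c then C (x + f i) else 0) := by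
    intro x
    rw [← nsmul_eq_mul, ← sum_const, sum_filter, ← sum_add_distrib]
    refine sum_congr rfl fun i _ => ?_
    split_ifs <;> simp
  have h2 : ∑ x : K, ∑ i : I, (if col x i = c then C (x + f i) else 0) =
      ∑ x : K, ((univ.filter fun i => col (x - f i) i = c).card : ZMod 2) * C x := by
    rw [sum_comm]
    have h3 : ∀ i : I, ∑ x : K, (if col x i = c then C (x + f i) else 0) =
        ∑ x : K, (if col (x - f i) i = c then C x else 0) := by
      intro i
      refine Fintype.sum_equiv (Equiv.addRight (f i)) _ _ fun x => ?_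
      simp
    simp only [h3]
    rw [sum_comm]
    refine sum_congr rfl fun x _ => ?_
    rw [← nsmul_eq_mul, ← sum_const, sum_filter]
  simp only [h1]
  rw [sum_add_distrib, h2, ← sum_add_distrib]
  refine sum_eq_zero fun x _ => ?_
  have h4 := h x c
  unfold hdeg at h4
  rw [← add_mul, ← Nat.cast_add, h4]
  have : ((2 : ℕ) : ZMod 2) = 0 := rfl
  rw [this, zero_mul]

end Classes

section Square

variable {K : Type*} [AddCommGroup K] {I : Type*}

/-- the four edges of the square at `x` in the directions `i`, `j` -/
def sqSet (f : I → K) (x : K) (i j : I) : Set (K × I) :=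
  {e | e = (x, i) ∨ e = (x + f j, i) ∨ e = (x, j) ∨ e = (x + f i, j)}

theorem mem_sqSet {f : I → K} {x : K} {i j : I} {e : K × I} : e ∈ sqSet f x i j ↔
    e = (x, i) ∨ e = (x + f j, i) ∨ e = (x, j) ∨ e = (x + f i, j) := Iff.rfl

/-- the square at `x` in the directions `i`, `j` can be switched -/
structure IsSq (f : I → K) (col : K → I → I) (x : K) (i j : I) : Prop where
  ne : i ≠ j
  hi : f i ≠ 0
  hj : f j ≠ 0
  ci : col (x + f j) i = col x i
  cj : col (x + f i) j = col x j

theorem IsSq.symm {f : I → K} {col : K → I → I} {x : K} {i j : I} (h : IsSq f col x i j) :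
    IsSq f col x j i := ⟨h.ne.symm, h.hj, h.hi, h.cj, h.ci⟩

variable [DecidableEq I]

/-- switch a square -/
noncomputable def sqSwap (f : I → K) (x : K) (i j : I) (col : K → I → I) : K → I → I :=
  swapOn (sqSet f x i j) (col x i) (col x j) col

theorem sqSwap_symm (f : I → K) (x : K) (i j : I) (col : K → I → I) :
    sqSwap f x i j col = sqSwap f x j i col := by
  unfold sqSwap
  have h1 : sqSet f x i j = sqSet f x j i := by
    ext e
    rw [mem_sqSet, mem_sqSet]
    tauto
  rw [h1]
  unfold swapOn
  rw [Equiv.swap_comm]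

variable {f : I → K} {col : K → I → I} {x : K} {i j : I}

theorem sqSwap_of_notMem {y : K} {k : I} (h : (y, k) ∉ sqSet f x i j) :
    sqSwap f x i j col y k = col y k := by
  unfold sqSwap swapOn
  rw [if_neg h]

theorem IsSq.swap_i (_h : IsSq f col x i j) : sqSwap f x i j col x i = col x j := by
  unfold sqSwap swapOn
  rw [if_pos (mem_sqSet.2 (Or.inl rfl)), Equiv.swap_apply_left]

theorem IsSq.swap_i' (h : IsSq f col x i j) : sqSwap f x i j col (x + f j) i = col x j := by
  unfold sqSwap swapOn
  rw [if_pos (mem_sqSet.2 (Or.inr (Or.inl rfl))), h.ci, Equiv.swap_apply_left]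

theorem IsSq.swap_j (h : IsSq f col x i j) : sqSwap f x i j col x j = col x i := by
  rw [sqSwap_symm, h.symm.swap_i]

theorem IsSq.swap_j' (h : IsSq f col x i j) : sqSwap f x i j col (x + f i) j = col x i := by
  rw [sqSwap_symm, h.symm.swap_i']

/-- the edges of the class of `(x, i)` after the switch -/
theorem IsSq.swap_iff (h : IsSq f col x i j) (hc : col x i ≠ col x j) {y : K} {k : I} :
    sqSwap f x i j col y k = col x i ↔
      (col y k = col x i ∧ (y, k) ≠ (x, i) ∧ (y, k) ≠ (x + f j, i)) ∨
        (y, k) = (x, j) ∨ (y, k) = (x + f i, j) := by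
  by_cases h1 : (y, k) ∈ sqSet f x i j
  · rcases mem_sqSet.1 h1 with h2 | h2 | h2 | h2
    · obtain ⟨rfl, rfl⟩ := Prod.mk.inj h2
      rw [h.swap_i]
      simp [hc.symm, h.ne]
    · obtain ⟨rfl, rfl⟩ := Prod.mk.inj h2
      rw [h.swap_i']
      simp [hc.symm, h.ne]
    · obtain ⟨rfl, rfl⟩ := Prod.mk.inj h2
      rw [h.swap_j]
      simp
    · obtain ⟨rfl, rfl⟩ := Prod.mk.inj h2
      rw [h.swap_j']
      simp
  · rw [sqSwap_of_notMem h1]
    rw [mem_sqSet] at h1
    tauto

/-- the other classes do not change -/
theorem IsSq.swap_other (h : IsSq f col x i j) {c : I} (hi : c ≠ col x i) (hj : c ≠ col x j)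
    {y : K} {k : I} : sqSwap f x i j col y k = c ↔ col y k = c := by
  by_cases h1 : (y, k) ∈ sqSet f x i j
  · rcases mem_sqSet.1 h1 with h2 | h2 | h2 | h2
    · obtain ⟨rfl, rfl⟩ := Prod.mk.inj h2
      rw [h.swap_i]
      exact ⟨fun h' => absurd h'.symm hj, fun h' => absurd h'.symm hi⟩
    · obtain ⟨rfl, rfl⟩ := Prod.mk.inj h2
      rw [h.swap_i', h.ci]
      exact ⟨fun h' => absurd h'.symm hj, fun h' => absurd h'.symm hi⟩
    · obtain ⟨rfl, rfl⟩ := Prod.mk.inj h2
      rw [h.swap_j]
      exact ⟨fun h' => absurd h'.symm hi, fun h' => absurd h'.symm hj⟩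
    · obtain ⟨rfl, rfl⟩ := Prod.mk.inj h2
      rw [h.swap_j', h.cj]
      exact ⟨fun h' => absurd h'.symm hi, fun h' => absurd h'.symm hj⟩
  · rw [sqSwap_of_notMem h1]

variable [Fintype I]

/-- switching a square preserves the degrees -/
theorem Deg2.sqSwap (hd : Deg2 f col) (h : IsSq f col x i j) :
    Deg2 f (sqSwap f x i j col) := by
  classical
  by_cases hc : col x i = col x j
  · have h1 : BL.sqSwap f x i j col = col := by
      funext y k
      unfold BL.sqSwap BL.swapOn
      rw [hc, Equiv.swap_self]
      simp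
    rwa [h1]
  refine hd.swapOn fun y => ?_
  unfold hdegOn
  have A1 : (univ.filter fun k => (y, k) ∈ sqSet f x i j ∧ col y k = col x i) =
      if y = x ∨ y = x + f j then {i} else ∅ := by
    ext k
    rw [mem_filter, mem_sqSet]
    simp only [mem_univ, true_and, Prod.mk.injEq]
    constructor
    · rintro ⟨⟨rfl, rfl⟩ | ⟨rfl, rfl⟩ | ⟨rfl, rfl⟩ | ⟨rfl, rfl⟩, h2⟩
      · simp
      · simp
      · exact absurd h2.symm hc
      · rw [h.cj] at h2
        exact absurd h2.symm hc
    · intro h2
      split_ifs at h2 with h3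
      · rw [mem_singleton] at h2
        subst h2
        rcases h3 with rfl | rfl
        · simp
        · simp [h.ci]
      · simp at h2
  have A2 : (univ.filter fun k => (y, k) ∈ sqSet f x i j ∧ col y k = col x j) =
      if y = x ∨ y = x + f i then {j} else ∅ := by
    ext k
    rw [mem_filter, mem_sqSet]
    simp only [mem_univ, true_and, Prod.mk.injEq]
    constructor
    · rintro ⟨⟨rfl, rfl⟩ | ⟨rfl, rfl⟩ | ⟨rfl, rfl⟩ | ⟨rfl, rfl⟩, h2⟩
      · exact absurd h2 hc
      · rw [h.ci] at h2
        exact absurd h2 hc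
      · simp
      · simp
    · intro h2
      split_ifs at h2 with h3
      · rw [mem_singleton] at h2
        subst h2
        rcases h3 with rfl | rfl
        · simp
        · simp [h.cj]
      · simp at h2
  have B1 : (univ.filter fun k => (y - f k, k) ∈ sqSet f x i j ∧ col (y - f k) k = col x i) =
      if y = x + f i ∨ y = x + f j + f i then {i} else ∅ := by
    ext k
    rw [mem_filter, mem_sqSet]
    simp only [mem_univ, true_and, Prod.mk.injEq]
    constructor
    · rintro ⟨⟨h1, rfl⟩ | ⟨h1, rfl⟩ | ⟨h1, rfl⟩ | ⟨h1, rfl⟩, h2⟩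
      · rw [sub_eq_iff_eq_add] at h1
        simp [h1]
      · rw [sub_eq_iff_eq_add] at h1
        simp [h1]
      · rw [h1] at h2
        exact absurd h2.symm hc
      · rw [h1, h.cj] at h2
        exact absurd h2.symm hc
    · intro h2
      split_ifs at h2 with h3
      · rw [mem_singleton] at h2
        subst h2
        rcases h3 with rfl | rfl
        · simp
        · simp [h.ci]
      · simp at h2
  have B2 : (univ.filter fun k => (y - f k, k) ∈ sqSet f x i j ∧ col (y - f k) k = col x j) =
      if y = x + f j ∨ y = x + f i + f j then {j} else ∅ := by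
    ext k
    rw [mem_filter, mem_sqSet]
    simp only [mem_univ, true_and, Prod.mk.injEq]
    constructor
    · rintro ⟨⟨h1, rfl⟩ | ⟨h1, rfl⟩ | ⟨h1, rfl⟩ | ⟨h1, rfl⟩, h2⟩
      · rw [h1] at h2
        exact absurd h2 hc
      · rw [h1, h.ci] at h2
        exact absurd h2 hc
      · rw [sub_eq_iff_eq_add] at h1
        simp [h1]
      · rw [sub_eq_iff_eq_add] at h1
        simp [h1]
    · intro h2
      split_ifs at h2 with h3
      · rw [mem_singleton] at h2
        subst h2
        rcases h3 with rfl | rfl
        · simp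
        · simp [h.cj]
      · simp at h2
  have N1 : ¬ (y = x ∧ y = x + f j) := fun ⟨h1, h2⟩ => h.hj (by
    rw [h1] at h2
    exact (left_eq_add.1 h2))
  have N2 : ¬ (y = x + f i ∧ y = x + f j + f i) := fun ⟨h1, h2⟩ => h.hj (by
    rw [h1, add_right_comm] at h2
    exact (left_eq_add.1 h2))
  have N3 : ¬ (y = x ∧ y = x + f i) := fun ⟨h1, h2⟩ => h.hi (by
    rw [h1] at h2
    exact (left_eq_add.1 h2))
  have N4 : ¬ (y = x + f j ∧ y = x + f i + f j) := fun ⟨h1, h2⟩ => h.hi (by
    rw [h1, add_right_comm] at h2
    exact (left_eq_add.1 h2))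
  have hk : ∀ (P Q : Prop) [Decidable P] [Decidable Q] (k : I), ¬ (P ∧ Q) →
      (if P ∨ Q then ({k} : Finset I) else ∅).card =
        (if P then 1 else 0) + (if Q then 1 else 0) := by
    intro P Q _ _ k hPQ
    by_cases hP : P <;> by_cases hQ : Q <;> simp_all
  rw [A1, A2, B1, B2, hk _ _ _ N1, hk _ _ _ N2, hk _ _ _ N3, hk _ _ _ N4,
    add_right_comm x (f i) (f j)]
  omega

end Square

section Merge

variable {K : Type*} [AddCommGroup K] [Fintype K] {I : Type*} [Fintype I] [DecidableEq I]
  {f : I → K} {col : K → I → I} {x : K} {i j : I}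

/-- MERGE for a square: if the two `i`-edges of the square lie in different components of their
class, the switch joins these components and changes nothing else in this class -/
theorem IsSq.merge (hd : Deg2 f col) (h : IsSq f col x i j) (hc : col x i ≠ col x j)
    {D : K → ZMod 2} (hD : ∀ y k, col y k = col x i → D y = D (y + f k))
    (hne : D x ≠ D (x + f j)) {C : K → ZMod 2}
    (hC : ∀ y k, sqSwap f x i j col y k = col x i → C y = C (y + f k)) :
    (∀ y k, col y k = col x i → C y = C (y + f k)) ∧ C x = C (x + f j) := by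
  classical
  have h1 : C x = C (x + f j) := hC x j h.swap_j
  have h2 : C (x + f i) = C (x + f j + f i) := by
    have := hC (x + f i) j h.swap_j'
    rw [this, add_right_comm]
  refine ⟨?_, h1⟩
  have h3 := BL.merge (hd.ev (col x i)) (a := (x, i)) (b := (x + f j, i)) (mem_cls.2 rfl)
    (mem_cls.2 h.ci) (x₁ := x) (y₁ := x + f i) (x₂ := x + f j) (y₂ := x + f j + f i) rfl rfl
    (cst_iff.2 hD) hne (C := C) (by
      rintro ⟨y, k⟩ hy
      simp only [mem_sdiff, mem_cls, mem_insert, mem_singleton, not_or] at hy
      exact bd_mk_eq_zero.2 (hC y k ((h.swap_iff hc).2 (Or.inl hy)))) h1 h2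
  exact cst_iff.1 h3

/-- if `x` and the far corner `x + f i + f j` cannot be separated without the two edges, the class
stays connected -/
theorem IsSq.par (h : IsSq f col x i j) (hc : col x i ≠ col x j)
    (hcn : Conn f col (col x i)) (hp : ∀ C : K → ZMod 2, (∀ y k, col y k = col x i →
      (y, k) ≠ (x, i) → (y, k) ≠ (x + f j, i) → C y = C (y + f k)) → C x = C (x + f i + f j)) :
    Conn f (sqSwap f x i j col) (col x i) := by
  classical
  rw [conn_iff]
  intro C hC
  have h1 : C x = C (x + f j) := hC x j h.swap_j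
  have h2 : C (x + f i) = C (x + f i + f j) := hC (x + f i) j h.swap_j'
  have h3 : ∀ y k, col y k = col x i → (y, k) ≠ (x, i) → (y, k) ≠ (x + f j, i) →
      C y = C (y + f k) := fun y k h3 h4 h5 => hC y k ((h.swap_iff hc).2 (Or.inl ⟨h3, h4, h5⟩))
  have h4 := hp C h3
  rw [conn_iff] at hcn
  apply hcn
  intro y k hy
  by_cases h5 : (y, k) = (x, i)
  · obtain ⟨rfl, rfl⟩ := Prod.mk.inj h5
    rw [h4, h2]
  · by_cases h6 : (y, k) = (x + f j, i)
    · obtain ⟨rfl, rfl⟩ := Prod.mk.inj h6
      rw [← h1, h4, add_right_comm]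
    · exact h3 y k hy h5 h6

/-- a class not touched by the switch -/
theorem IsSq.conn_other (h : IsSq f col x i j) {c : I} (hi : c ≠ col x i) (hj : c ≠ col x j) :
    Conn f (sqSwap f x i j col) c ↔ Conn f col c := by
  unfold Conn Closed
  simp only [h.swap_other hi hj]

end Merge

section Ham

variable {K : Type*} [AddCommGroup K] {I : Type*} [Fintype I] [DecidableEq I]

/-- the neighbours in the class `c` -/
theorem fromRel_adj' {f : I → K} (h0 : ∀ i, f i ≠ 0) {col : K → I → I} {c : I} {x y : K} :
    (SimpleGraph.fromRel fun x y => ∃ i, col x i = c ∧ y = x + f i).Adj x y ↔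
      (∃ i, col x i = c ∧ y = x + f i) ∨ ∃ i, col (x - f i) i = c ∧ y = x - f i := by
  rw [SimpleGraph.fromRel_adj]
  constructor
  · rintro ⟨-, h | ⟨i, h, rfl⟩⟩
    · exact Or.inl h
    · exact Or.inr ⟨i, by rwa [add_sub_cancel_right], by rw [add_sub_cancel_right]⟩
  · rintro (⟨i, h, rfl⟩ | ⟨i, h, rfl⟩)
    · exact ⟨fun h1 => h0 i (left_eq_add.1 h1), Or.inl ⟨i, h, rfl⟩⟩
    · exact ⟨fun h1 => h0 i (sub_eq_self.1 h1.symm), Or.inr ⟨i, h, by rw [sub_add_cancel]⟩⟩

/-- an exact decomposition for labels without repetitions and involutions is a Hamilton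
decomposition of the Cayley graph -/
theorem EDec.hamDec {G : Type*} [AddCommGroup G] [DecidableEq G] {B : Finset G}
    (hB : ∀ s ∈ B, -s ∉ B) (h : EDec (fun b : B => (b : G))) :
    Helper4.Sel.HamDec G (B : Set G) := by
  classical
  obtain ⟨col, hd, hc⟩ := h
  have h0 : ∀ i : B, (i : G) ≠ 0 := by
    rintro ⟨i, hi⟩ h
    simp only at h
    subst h
    exact hB 0 hi (by simpa using hi)
  have hneg : ∀ i j : B, (i : G) ≠ -(j : G) := by
    intro i j h
    exact hB _ j.2 (h ▸ i.2)
  set Z : B → SimpleGraph G := fun c =>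
    SimpleGraph.fromRel fun x y => ∃ i, col x i = c ∧ y = x + (i : G) with hZ
  have hZa : ∀ (c : B) (x y : G), (Z c).Adj x y ↔
      (∃ i : B, col x i = c ∧ y = x + (i : G)) ∨
        ∃ i : B, col (x - (i : G)) i = c ∧ y = x - (i : G) :=
    fun c x y => fromRel_adj' h0
  have hcirc : ∀ x y, (SimpleGraph.circulantGraph (B : Set G)).Adj x y ↔
      (∃ i : B, y = x + (i : G)) ∨ ∃ i : B, y = x - (i : G) := by
    intro x y
    rw [SimpleGraph.circulantGraph_adj]
    simp only [Finset.mem_coe]
    constructor
    · rintro ⟨-, h | h⟩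
      · exact Or.inr ⟨⟨_, h⟩, by simp⟩
      · exact Or.inl ⟨⟨_, h⟩, by simp⟩
    · rintro (⟨i, rfl⟩ | ⟨i, rfl⟩)
      · exact ⟨fun h1 => h0 i (left_eq_add.1 h1), Or.inr (by simp)⟩
      · exact ⟨fun h1 => h0 i (sub_eq_self.1 h1.symm), Or.inl (by simp)⟩
  refine ⟨Z, fun c => ⟨?_, ?_⟩, ?_, ?_⟩
  · refine ⟨?_⟩
    intro x y
    refine hc c {z | (Z c).Reachable x z} ?_ x y (SimpleGraph.Reachable.refl _)
    intro z i hz
    have h1 : (Z c).Adj z (z + (i : G)) := (hZa _ _ _).2 (Or.inl ⟨i, hz, rfl⟩)
    exact ⟨fun h2 => h2.trans h1.reachable, fun h2 => h2.trans h1.symm.reachable⟩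
  · intro v
    have h1 : (Z c).neighborSet v =
        ((univ.filter fun i : B => col v i = c).image (fun i : B => v + (i : G)) ∪
        (univ.filter fun i : B => col (v - (i : G)) i = c).image
          (fun i : B => v - (i : G)) : Finset G) := by
      ext w
      rw [SimpleGraph.mem_neighborSet, hZa]
      simp only [coe_union, coe_image, coe_filter, mem_univ, true_and, Set.mem_union,
        Set.mem_image, Set.mem_ofPred_eq]
      constructor
      · rintro (⟨i, h1, rfl⟩ | ⟨i, h1, rfl⟩)
        · exact Or.inl ⟨i, h1, rfl⟩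
        · exact Or.inr ⟨i, h1, rfl⟩
      · rintro (⟨i, h1, rfl⟩ | ⟨i, h1, rfl⟩)
        · exact Or.inl ⟨i, h1, rfl⟩
        · exact Or.inr ⟨i, h1, rfl⟩
    rw [h1, Set.encard_coe_eq_coe_finsetCard, card_union_of_disjoint, card_image_of_injective,
      card_image_of_injective]
    · have h2 := hd v c
      unfold hdeg at h2
      rw [h2]
      rfl
    · intro i j hij
      exact Subtype.ext (sub_right_injective hij)
    · intro i j hij
      exact Subtype.ext (add_right_injective v hij)
    · rw [disjoint_left]
      intro w h2 h3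
      rw [mem_image] at h2 h3
      obtain ⟨i, -, rfl⟩ := h2
      obtain ⟨j, -, h3⟩ := h3
      apply hneg i j
      rw [sub_eq_add_neg] at h3
      exact (add_left_cancel h3).symm
  · intro c x y hxy
    rw [hcirc]
    rcases (hZa _ _ _).1 hxy with ⟨i, -, h1⟩ | ⟨i, -, h1⟩
    · exact Or.inl ⟨i, h1⟩
    · exact Or.inr ⟨i, h1⟩
  · intro x y hxy
    rcases (hcirc x y).1 hxy with ⟨i, rfl⟩ | ⟨i, rfl⟩
    · refine ⟨col x i, (hZa _ _ _).2 (Or.inl ⟨i, rfl, rfl⟩), ?_⟩
      intro c hc'
      rcases (hZa _ _ _).1 hc' with ⟨j, h1, h2⟩ | ⟨j, h1, h2⟩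
      · have h3 : i = j := Subtype.ext (add_left_cancel h2)
        rw [h3, h1]
      · rw [sub_eq_add_neg] at h2
        exact absurd (add_left_cancel h2) (hneg i j)
    · refine ⟨col (x - (i : G)) i, (hZa _ _ _).2 (Or.inr ⟨i, rfl, rfl⟩), ?_⟩
      intro c hc'
      rcases (hZa _ _ _).1 hc' with ⟨j, h1, h2⟩ | ⟨j, h1, h2⟩
      · rw [sub_eq_add_neg] at h2
        exact absurd (add_left_cancel h2).symm (hneg j i)
      · have h3 : i = j := Subtype.ext (sub_right_injective h2)
        rw [h3, h1]

end Ham

section Transport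

variable {K K' : Type*} [AddCommGroup K] [AddCommGroup K'] {I I' : Type*} [Fintype I]
  [DecidableEq I] [Fintype I'] [DecidableEq I']

/-- transport along an isomorphism of groups -/
theorem EDec.map {f : I → K} (h : EDec f) (φ : K ≃+ K') : EDec (fun i => φ (f i)) := by
  obtain ⟨col, hd, hc⟩ := h
  refine ⟨fun x i => col (φ.symm x) i, ?_, ?_⟩
  · intro x c
    have h1 := hd (φ.symm x) c
    unfold hdeg at h1 ⊢
    rw [← h1]
    simp only [map_sub, AddEquiv.symm_apply_apply]
  · intro c P hP x y hx
    have h1 := hc c (φ ⁻¹' P) (fun z i hz => by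
      simp only [Set.mem_preimage, map_add]
      exact hP (φ z) i (by simpa using hz)) (φ.symm x) (φ.symm y) (by simpa using hx)
    simpa using h1

/-- renaming of the labels -/
theorem EDec.reindex {f : I → K} (h : EDec f) (σ : I' ≃ I) : EDec (fun i => f (σ i)) := by
  obtain ⟨col, hd, hc⟩ := h
  refine ⟨fun x i => σ.symm (col x (σ i)), ?_, ?_⟩
  · intro x c
    have h1 := hd x (σ c)
    unfold hdeg at h1 ⊢
    rw [← h1]
    congr 1
    · refine card_bij (fun i _ => σ i) ?_ (fun i _ j _ h => σ.injective h) ?_
      · intro i hi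
        simp only [mem_filter, mem_univ, true_and] at hi ⊢
        rw [← hi, Equiv.apply_symm_apply]
      · intro i hi
        simp only [mem_filter, mem_univ, true_and] at hi ⊢
        exact ⟨σ.symm i, by simp [hi], by simp⟩
    · refine card_bij (fun i _ => σ i) ?_ (fun i _ j _ h => σ.injective h) ?_
      · intro i hi
        simp only [mem_filter, mem_univ, true_and] at hi ⊢
        rw [← hi, Equiv.apply_symm_apply]
      · intro i hi
        simp only [mem_filter, mem_univ, true_and] at hi ⊢
        exact ⟨σ.symm i, by simp [hi], by simp⟩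
  · intro c P hP x y hx
    refine hc (σ c) P (fun z i hz => ?_) x y hx
    have h1 := hP z (σ.symm i) (by simp [hz])
    simpa using h1

/-- change of signs -/
theorem EDec.neg_on {f : I → K} (h : EDec f) (N : I → Prop) [DecidablePred N] :
    EDec (fun i => if N i then -f i else f i) := by
  obtain ⟨col, hd, hc⟩ := h
  refine ⟨fun x i => if N i then col (x - f i) i else col x i, ?_, ?_⟩
  · intro x c
    have h1 := hd x c
    unfold hdeg at h1 ⊢
    rw [← h1]
    simp only [card_filter]
    rw [← sum_add_distrib, ← sum_add_distrib]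
    refine sum_congr rfl fun i _ => ?_
    by_cases hN : N i
    · simp only [hN, if_true, sub_neg_eq_add, add_sub_cancel_right]
      rw [add_comm]
    · simp only [hN, if_false]
  · intro c P hP x y hx
    refine hc c P (fun z i hz => ?_) x y hx
    by_cases hN : N i
    · have h1 := hP (z + f i) i (by simp [hN, hz])
      simp only [hN, if_true, add_neg_cancel_right] at h1
      exact h1.symm
    · have h1 := hP z i (by simp [hN, hz])
      simpa [hN] using h1

end Transport

section Lift

variable {K Q : Type*} [AddCommGroup K] [AddCommGroup Q] {J : Type*} [Fintype J]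
  [DecidableEq J]

/-- the labels of the lift: `none` is the new generator `g` -/
def lab (g : K) (f : J → K) : Option J → K := fun o => o.elim g f

@[simp] theorem lab_none (g : K) (f : J → K) : lab g f none = g := rfl

@[simp] theorem lab_some (g : K) (f : J → K) (j : J) : lab g f (some j) = f j := rfl

/-- the lift of a colouring along `φ`; the new class `none` consists of the `g`-edges -/
def lift (φ : K →+ Q) (col : Q → J → J) : K → Option J → Option J := fun x o =>
  o.elim none fun j => some (col (φ x) j)

@[simp] theorem lift_none (φ : K →+ Q) (col : Q → J → J) (x : K) : lift φ col x none = none := rfl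

@[simp] theorem lift_some (φ : K →+ Q) (col : Q → J → J) (x : K) (j : J) :
    lift φ col x (some j) = some (col (φ x) j) := rfl

theorem card_filter_option (p : Option J → Prop) [DecidablePred p] :
    (univ.filter p).card = (if p none then 1 else 0) + (univ.filter fun j => p (some j)).card := by
  rw [Finset.card_filter, Fintype.sum_option, Finset.card_filter]

theorem Deg2.lift {φ : K →+ Q} {f : J → K} {g : K} {col : Q → J → J}
    (h : Deg2 (fun j => φ (f j)) col) : Deg2 (lab g f) (BL.lift φ col) := by
  intro x c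
  unfold hdeg
  rw [card_filter_option, card_filter_option]
  cases c with
  | none => simp
  | some c =>
    simp only [lift_none, lift_some, lab_some, Option.some.injEq, reduceCtorEq, if_false,
      zero_add, map_sub]
    exact h (φ x) c

end Lift

end Pool.Agent.Helper74.BL
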